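import Mathlib
import Pool.Agent.R366.NF.Final

set_option autoImplicit false

/-!
# Bihomogeneous forms, local heights on `ℙ¹ × ℙ¹`
-/

namespace Pool.Agent.R366.PP

open MvPolynomial NumberField IsDedekindDomain Pool.Agent.R366.NF Pool.Agent.TH910.Voj
  Pool.Agent.H813R3.Voj

open scoped Classical

variable {K : Type} [Field K] [NumberField K] {ℓ : ℕ}

/-- the four coordinates -/
def join {R : Type} (s t : Fin 2 → R) : Fin 4 → R := ![s 0, s 1, t 0, t 1]

/-- bihomogeneous of bidegree `(a, b)` -/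
def Bihom {R : Type} [CommSemiring R] (F : MvPolynomial (Fin 4) R) (a b : ℕ) : Prop :=
  F.IsWeightedHomogeneous (![1, 1, 0, 0] : Fin 4 → ℕ) a ∧
    F.IsWeightedHomogeneous (![0, 0, 1, 1] : Fin 4 → ℕ) b

lemma Bihom.exps {R : Type} [CommSemiring R] {F : MvPolynomial (Fin 4) R} {a b : ℕ}
    (h : Bihom F a b) {d : Fin 4 →₀ ℕ} (hd : coeff d F ≠ 0) :
    d 0 + d 1 = a ∧ d 2 + d 3 = b := by
  have h1 := h.1 hd
  have h2 := h.2 hd
  rw [Finsupp.weight_apply, Finsupp.sum_fintype _ _ (by simp)] at h1 h2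
  simp [Fin.sum_univ_four] at h1 h2
  exact ⟨h1, h2⟩

lemma Bihom.hom {R : Type} [CommSemiring R] {F : MvPolynomial (Fin 4) R} {a b : ℕ}
    (h : Bihom F a b) : F.IsHomogeneous (a + b) := by
  intro d hd
  obtain ⟨h1, h2⟩ := h.exps hd
  rw [Finsupp.weight_apply, Finsupp.sum_fintype _ _ (by simp)]
  simp [Fin.sum_univ_four]
  omega

lemma aeval_join_smul (F : MvPolynomial (Fin 4) (𝓞 K)) {a b : ℕ} (h : Bihom F a b)
    (c e : K) (s t : Fin 2 → K) :
    aeval (join (c • s) (e • t)) F = c ^ a * e ^ b * aeval (join s t) F := by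
  rw [MvPolynomial.aeval_def, MvPolynomial.aeval_def, MvPolynomial.eval₂_eq',
    MvPolynomial.eval₂_eq', Finset.mul_sum]
  refine Finset.sum_congr rfl fun d hd => ?_
  obtain ⟨h1, h2⟩ := h.exps (MvPolynomial.mem_support_iff.mp hd)
  simp only [Fin.prod_univ_four, join, Matrix.cons_val_zero, Matrix.cons_val_one,
    Matrix.cons_val, Pi.smul_apply, smul_eq_mul]
  rw [← h1, ← h2]
  ring

/-- the truncated counting function of the divisor `∏ F_j = 0` -/
noncomputable def truncatedCount (S : Finset ℕ) (F : Fin ℓ → MvPolynomial (Fin 4) (𝓞 K))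
    (a b : Fin ℓ → ℕ) (s t : Fin 2 → K) : ℝ :=
  ∑ᶠ v : HeightOneSpectrum (𝓞 K), if (∀ p ∈ S, (p : 𝓞 K) ∉ v.asIdeal) ∧
      ∃ j, FinitePlace.mk v (aeval (join s t) (F j)) <
        (⨆ i, FinitePlace.mk v (s i)) ^ a j * (⨆ i, FinitePlace.mk v (t i)) ^ b j
    then Real.log (Ideal.absNorm v.asIdeal) else 0

lemma truncatedCount_smul (S : Finset ℕ) (F : Fin ℓ → MvPolynomial (Fin 4) (𝓞 K))
    (a b : Fin ℓ → ℕ) (hF : ∀ j, Bihom (F j) (a j) (b j)) {c e : K} (hc : c ≠ 0) (he : e ≠ 0)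
    (s t : Fin 2 → K) :
    truncatedCount S F a b (c • s) (e • t) = truncatedCount S F a b s t := by
  unfold truncatedCount
  refine finsum_congr fun v => ?_
  have h1 : ∀ j, (FinitePlace.mk v (aeval (join (c • s) (e • t)) (F j)) <
      (⨆ i, FinitePlace.mk v ((c • s) i)) ^ a j * (⨆ i, FinitePlace.mk v ((e • t) i)) ^ b j)
      ↔ (FinitePlace.mk v (aeval (join s t) (F j)) <
      (⨆ i, FinitePlace.mk v (s i)) ^ a j * (⨆ i, FinitePlace.mk v (t i)) ^ b j) := by
    intro j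
    have hv : 0 < FinitePlace.mk v c := FinitePlace.pos_iff.2 hc
    have hv' : 0 < FinitePlace.mk v e := FinitePlace.pos_iff.2 he
    have h2 : (⨆ i, FinitePlace.mk v ((c • s) i)) = FinitePlace.mk v c * ⨆ i, FinitePlace.mk v (s i) :=
      sup_smul (FinitePlace.mk v).1 c s
    have h3 : (⨆ i, FinitePlace.mk v ((e • t) i)) = FinitePlace.mk v e * ⨆ i, FinitePlace.mk v (t i) :=
      sup_smul (FinitePlace.mk v).1 e t
    rw [h2, h3, aeval_join_smul (F j) (hF j), map_mul, map_mul, map_pow, map_pow, mul_pow, mul_pow]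
    have h4 : ∀ u w : ℝ, FinitePlace.mk v c ^ a j * u * (FinitePlace.mk v e ^ b j * w) =
      FinitePlace.mk v c ^ a j * FinitePlace.mk v e ^ b j * (u * w) := fun u w => by ring
    rw [h4]
    exact mul_lt_mul_iff_right₀ (mul_pos (pow_pos hv _) (pow_pos hv' _))
  simp only [h1]

lemma join_coe (s t : Fin 2 → 𝓞 K) : (fun i => ((join s t i : 𝓞 K) : K)) =
    join (fun i => (s i : K)) (fun i => (t i : K)) := by
  funext i
  fin_cases i <;> rfl

/-- integral coordinates with bounded content -/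
lemma trunc_transfer (S : Finset ℕ) (F : Fin ℓ → MvPolynomial (Fin 4) (𝓞 K))
    (a b : Fin ℓ → ℕ) (s t : Fin 2 → 𝓞 K)
    (hFy : ∀ j, eval (join s t) (F j) ≠ 0) (m₁ m₂ : ℕ) (hm₁ : 0 < m₁) (hm₂ : 0 < m₂)
    (hmem₁ : (m₁ : 𝓞 K) ∈ Ideal.span (Set.range s)) (hmem₂ : (m₂ : 𝓞 K) ∈ Ideal.span (Set.range t)) :
    truncI S (fun j => eval (join s t) (F j)) ≤
      truncatedCount S F a b (fun i => (s i : K)) (fun i => (t i : K)) +
      Module.finrank ℚ K * Real.log (m₁ * m₂ : ℕ) := by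
  obtain ⟨m, hmdef⟩ : ∃ m : ℕ, m = m₁ * m₂ := ⟨_, rfl⟩
  have hm : 0 < m := hmdef ▸ Nat.mul_pos hm₁ hm₂
  rw [← hmdef]
  obtain ⟨S0, hS0, hsum⟩ := Pool.Agent.R366.UC.bad_places (K := K) (m := (m : ℤ)) (by
    exact_mod_cast hm.ne')
  have hfin : (⋃ j, {v : HeightOneSpectrum (𝓞 K) | eval (join s t) (F j) ∈ v.asIdeal}).Finite :=
    Set.finite_iUnion fun j => finite_mem (hFy j)
  set T := hfin.toFinset with hT
  have hTmem : ∀ (v : HeightOneSpectrum (𝓞 K)) (j), eval (join s t) (F j) ∈ v.asIdeal → v ∈ T := by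
    intro v j h
    rw [hT, Set.Finite.mem_toFinset, Set.mem_iUnion]
    exact ⟨j, h⟩
  have hval : ∀ (v : HeightOneSpectrum (𝓞 K)) (a : 𝓞 K), FinitePlace.mk v (a : K) < 1 ↔
      a ∈ v.asIdeal := by
    intro v a
    rw [FinitePlace.mk_apply]
    exact FinitePlace.norm_lt_one_iff_mem K v a
  have hsup : ∀ (v : HeightOneSpectrum (𝓞 K)) (y : Fin 2 → 𝓞 K),
      (⨆ i, FinitePlace.mk v ((y i : K))) ≤ 1 :=
    fun v y => ciSup_le fun i => fp_le_one _ (y i)
  have hsup0 : ∀ (v : HeightOneSpectrum (𝓞 K)) (y : Fin 2 → 𝓞 K),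
      0 ≤ (⨆ i, FinitePlace.mk v ((y i : K))) :=
    fun v y => Real.iSup_nonneg fun i => apply_nonneg _ _
  have haev : ∀ j, aeval (join (fun i => (s i : K)) (fun i => (t i : K))) (F j) =
      ((eval (join s t) (F j) : 𝓞 K) : K) := by
    intro j
    rw [← join_coe, aeval_coe]
  have hcond : ∀ (v : HeightOneSpectrum (𝓞 K)) (j),
      FinitePlace.mk v (aeval (join (fun i => (s i : K)) (fun i => (t i : K))) (F j)) <
      (⨆ i, FinitePlace.mk v ((s i : K))) ^ a j * (⨆ i, FinitePlace.mk v ((t i : K))) ^ b j →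
      eval (join s t) (F j) ∈ v.asIdeal := by
    intro v j h
    rw [haev] at h
    rw [← hval]
    refine h.trans_le (mul_le_one₀ (pow_le_one₀ (hsup0 v s) (hsup v s)) (pow_nonneg (hsup0 v t) _)
      (pow_le_one₀ (hsup0 v t) (hsup v t)))
  unfold truncI truncatedCount
  rw [finsum_eq_sum_of_support_subset _ (s := T) (by
      intro v hv
      rw [Function.mem_support] at hv
      by_contra hvT
      apply hv
      rw [if_neg]
      rintro ⟨-, j, hj⟩
      exact hvT (hTmem v j hj)),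
    finsum_eq_sum_of_support_subset _ (s := T) (by
      intro v hv
      rw [Function.mem_support] at hv
      by_contra hvT
      apply hv
      rw [if_neg]
      rintro ⟨-, j, hj⟩
      exact hvT (hTmem v j (hcond v j hj)))]
  have h1 : ∑ v ∈ T.filter (fun v => (m : 𝓞 K) ∈ v.asIdeal), Real.log (Ideal.absNorm v.asIdeal : ℝ) ≤
      Module.finrank ℚ K * Real.log m := by
    have h2 : ∑ v ∈ T.filter (fun v => (m : 𝓞 K) ∈ v.asIdeal),
        Real.log (Ideal.absNorm v.asIdeal : ℝ) =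
        ∑ w ∈ (T.filter (fun v => (m : 𝓞 K) ∈ v.asIdeal)).image FinitePlace.mk,
          Real.log (Pool.Agent.H57R3.VJ.NN w) := by
      rw [Finset.sum_image (fun v _ v' _ h => by
        rw [← FinitePlace.maximalIdeal_mk v, ← FinitePlace.maximalIdeal_mk v', h])]
      refine Finset.sum_congr rfl fun v _ => ?_
      unfold Pool.Agent.H57R3.VJ.NN
      rw [FinitePlace.maximalIdeal_mk]
    rw [h2]
    have h3 : |((m : ℤ) : ℝ)| = m := by rw [Int.cast_natCast, Nat.abs_cast]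
    rw [h3] at hsum
    refine le_trans (Finset.sum_le_sum_of_subset_of_nonneg ?_ ?_) hsum
    · intro w hw
      rw [Finset.mem_image] at hw
      obtain ⟨v, hv, rfl⟩ := hw
      rw [Finset.mem_filter] at hv
      by_contra hcon
      have h4 := hS0 _ hcon
      have h5 := (hval v (m : 𝓞 K)).2 hv.2
      have h6 : (((m : ℕ) : 𝓞 K) : K) = ((m : ℤ) : K) := by simp
      rw [h6, h4] at h5
      exact lt_irrefl _ h5
    · intro w _ _
      exact Real.log_nonneg (by linarith [Pool.Agent.H57R3.VJ.two_le_NN w])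
  refine le_trans ?_ (add_le_add le_rfl h1)
  rw [Finset.sum_filter, ← Finset.sum_add_distrib]
  refine Finset.sum_le_sum fun v _ => ?_
  have hone : ∀ (y : Fin 2 → 𝓞 K) (m' : ℕ), (m' : 𝓞 K) ∈ Ideal.span (Set.range y) →
      (m' : 𝓞 K) ∉ v.asIdeal → (⨆ i, FinitePlace.mk v ((y i : K))) = 1 := by
    intro y m' hmem h3
    refine le_antisymm (hsup v y) ?_
    by_contra hlt
    rw [not_le] at hlt
    apply h3
    have h6 : Ideal.span (Set.range y) ≤ v.asIdeal := by
      rw [Ideal.span_le]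
      rintro _ ⟨i, rfl⟩
      refine (hval v (y i)).1 (lt_of_le_of_lt ?_ hlt)
      exact Finite.le_ciSup_of_le i le_rfl
    exact h6 hmem
  by_cases h2 : (∀ p ∈ S, (p : 𝓞 K) ∉ v.asIdeal) ∧ ∃ j, eval (join s t) (F j) ∈ v.asIdeal
  · rw [if_pos h2]
    by_cases h3 : (m : 𝓞 K) ∈ v.asIdeal
    · rw [if_pos h3]
      have h4 : 0 ≤ (if (∀ p ∈ S, (p : 𝓞 K) ∉ v.asIdeal) ∧
          ∃ j, FinitePlace.mk v (aeval (join (fun i => (s i : K)) (fun i => (t i : K))) (F j)) <
            (⨆ i, FinitePlace.mk v ((s i : K))) ^ a j * (⨆ i, FinitePlace.mk v ((t i : K))) ^ b j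
          then Real.log (Ideal.absNorm v.asIdeal : ℝ) else 0) := by
        split_ifs
        · exact log_absNorm_nonneg v
        · exact le_rfl
      linarith
    · rw [if_neg h3, if_pos, add_zero]
      refine ⟨h2.1, ?_⟩
      obtain ⟨j, hj⟩ := h2.2
      refine ⟨j, ?_⟩
      have h31 : (m₁ : 𝓞 K) ∉ v.asIdeal := by
        intro h
        apply h3
        rw [hmdef, Nat.cast_mul]
        exact Ideal.mul_mem_right _ _ h
      have h32 : (m₂ : 𝓞 K) ∉ v.asIdeal := by
        intro h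
        apply h3
        rw [hmdef, Nat.cast_mul]
        exact Ideal.mul_mem_left _ _ h
      rw [hone s m₁ hmem₁ h31, hone t m₂ hmem₂ h32, one_pow, one_pow, one_mul, haev]
      exact (hval v _).2 hj
  · rw [if_neg h2]
    have h4 : 0 ≤ (if (∀ p ∈ S, (p : 𝓞 K) ∉ v.asIdeal) ∧
        ∃ j, FinitePlace.mk v (aeval (join (fun i => (s i : K)) (fun i => (t i : K))) (F j)) <
          (⨆ i, FinitePlace.mk v ((s i : K))) ^ a j * (⨆ i, FinitePlace.mk v ((t i : K))) ^ b j
        then Real.log (Ideal.absNorm v.asIdeal : ℝ) else 0) := by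
      split_ifs
      · exact log_absNorm_nonneg v
      · exact le_rfl
    have h5 : 0 ≤ (if (m : 𝓞 K) ∈ v.asIdeal then Real.log (Ideal.absNorm v.asIdeal : ℝ) else 0) := by
      split_ifs
      · exact log_absNorm_nonneg v
      · exact le_rfl
    linarith

end Pool.Agent.R366.PP
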