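import Mathlib
import Pool.Agent.R366.PP.Loc

set_option autoImplicit false

/-!
# Truncated counting functions at almost all pairs of points of the projective line
-/

namespace Pool.Agent.R366.PP

open MvPolynomial NumberField IsDedekindDomain Pool.Agent.R366.NF Pool.Agent.TH910.Voj
  Pool.Agent.H813R3.Voj

open scoped Classical LinearAlgebra.Projectivization

variable {K : Type} [Field K] [NumberField K] {ℓ n : ℕ}

variable (K n) in
/-- integral coordinates of points -/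
lemma coords : ∃ (A : ℝ) (M : ℕ), 1 ≤ A ∧ ∀ P : ℙ K (Fin (n + 1) → K),
    ∃ (t : K) (y : Fin (n + 1) → 𝓞 K) (N : ℕ), t ≠ 0 ∧ (fun i => (y i : K)) = t • P.rep ∧
      0 < N ∧ N ≤ M ∧ (N : 𝓞 K) ∈ Ideal.span (Set.range y) ∧
      ∀ B : ℝ, P.mulHeight ≤ B → ∀ i l,
        |(((RingOfIntegers.basis K).repr (y i) l : ℤ) : ℝ)| ≤
          A * B ^ (1 / (Module.finrank ℚ K : ℝ)) := by
  obtain ⟨Cr, Mr, hCr, hrep⟩ := rep' K (n := n)
  obtain ⟨Ac, hAc, hcoord⟩ := coord_le K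
  refine ⟨max 1 (Ac * Cr), Mr, le_max_left _ _, fun P => ?_⟩
  obtain ⟨t, ht, y, hy, hsize, N, hN, hNM, hmem⟩ := hrep P.rep P.rep_nonzero
  refine ⟨t, y, N, ht, ?_, hN, hNM, hmem, fun B hP i l => ?_⟩
  · funext i
    rw [Pi.smul_apply, smul_eq_mul]
    exact hy i
  · have hPh : Height.mulHeight P.rep ≤ B := by
      have h1 : P.mulHeight = Height.mulHeight P.rep := by
        conv_lhs => rw [← P.mk_rep]
        exact Projectivization.mulHeight_mk _
      rw [← h1]; exact hP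
    have hB0 : 0 ≤ B := (Height.mulHeight_pos _).le.trans hPh
    have h0 : (0 : ℝ) ≤ Cr * B ^ (1 / (Module.finrank ℚ K : ℝ)) := by positivity
    refine (hcoord (y i) _ h0 (fun w => ?_) l).trans ?_
    · refine (hsize w i).trans (mul_le_mul_of_nonneg_left ?_ hCr.le)
      exact Real.rpow_le_rpow (Height.mulHeight_pos _).le hPh (by positivity)
    · rw [← mul_assoc]
      exact mul_le_mul_of_nonneg_right (le_max_right _ _) (by positivity)

lemma eq_of_coords {P P' : ℙ K (Fin (n + 1) → K)} {t t' : K} {y y' : Fin (n + 1) → 𝓞 K}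
    (ht : t ≠ 0) (h : (fun i => (y i : K)) = t • P.rep) (h' : (fun i => (y' i : K)) = t' • P'.rep)
    (hyy : y = y') : P = P' := by
  have h2 : t • P.rep = t' • P'.rep := by rw [← h, ← h', hyy]
  rw [← P.mk_rep, ← P'.mk_rep, Projectivization.mk_eq_mk_iff']
  refine ⟨t⁻¹ * t', ?_⟩
  rw [mul_smul, ← h2, smul_smul, inv_mul_cancel₀ ht, one_smul]

lemma eq_of_repr {y y' : 𝓞 K} (h : ∀ l, (RingOfIntegers.basis K).repr y l =
    (RingOfIntegers.basis K).repr y' l) : y = y' := by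
  apply (RingOfIntegers.basis K).repr.injective
  exact Finsupp.ext h

variable (K n) in
/-- the number of points of bounded height -/
lemma count_points : ∃ C : ℝ, 0 < C ∧ ∀ B : ℝ, 1 ≤ B → ∃ Z : Finset (ℙ K (Fin (n + 1) → K)),
    (Z.card : ℝ) ≤ C * B ^ ((n : ℝ) + 1) ∧ ∀ P, P.mulHeight ≤ B → P ∈ Z := by
  obtain ⟨A, M, hA, hco⟩ := coords K n
  choose t y N ht hy hN hNM hmem hsize using hco
  set d : ℕ := Module.finrank ℚ K with hd
  have hd1 : 1 ≤ d := Module.finrank_pos (R := ℚ) (M := K)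
  have hd0 : (0 : ℝ) < d := by exact_mod_cast hd1
  refine ⟨(5 * A) ^ ((n + 1) * d), by positivity, fun B hB => ?_⟩
  have hB0 : 0 < B := by linarith
  have hroot : 1 ≤ B ^ (1 / (d : ℝ)) := Real.one_le_rpow hB (by positivity)
  set W : ℕ := ⌈A * B ^ (1 / (d : ℝ))⌉₊ with hW
  have hAB : 1 ≤ A * B ^ (1 / (d : ℝ)) := one_le_mul_of_one_le_of_one_le hA hroot
  have hW1 : A * B ^ (1 / (d : ℝ)) ≤ W := Nat.le_ceil _
  have hW2 : (W : ℝ) ≤ 2 * (A * B ^ (1 / (d : ℝ))) := by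
    have := (Nat.ceil_lt_add_one (a := A * B ^ (1 / (d : ℝ))) (by linarith)).le
    linarith
  let u : ℙ K (Fin (n + 1) → K) → (Fin (n + 1) × Idx K → ℤ) := fun P z =>
    (RingOfIntegers.basis K).repr (y P z.1) z.2
  have hinj : Function.Injective u := by
    intro P P' h
    refine eq_of_coords (ht P) (hy P) (hy P') ?_
    funext i
    exact eq_of_repr fun l => congrFun h (i, l)
  let bx : Finset (Fin (n + 1) × Idx K → ℤ) := Fintype.piFinset fun _ => Finset.Icc (-(W : ℤ)) W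
  have hfin := (bx.finite_toSet).preimage hinj.injOn
  refine ⟨hfin.toFinset, ?_, ?_⟩
  · have h1 : hfin.toFinset.card ≤ bx.card := by
      refine Finset.card_le_card_of_injOn u ?_ hinj.injOn
      intro P hP
      have := (Set.Finite.mem_toFinset hfin).1 hP
      exact this
    have h2 : bx.card = (2 * W + 1) ^ ((n + 1) * d) := by
      rw [Fintype.card_piFinset]
      simp only [Int.card_Icc, Finset.prod_const, Finset.card_univ, Fintype.card_prod,
        Fintype.card_fin, card_idx]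
      congr 1
      omega
    have h3 : (hfin.toFinset.card : ℝ) ≤ (2 * (W : ℝ) + 1) ^ ((n + 1) * d) := by
      rw [h2] at h1
      exact_mod_cast h1
    refine h3.trans ?_
    have h4 : 2 * (W : ℝ) + 1 ≤ 5 * A * B ^ (1 / (d : ℝ)) := by nlinarith
    refine (pow_le_pow_left₀ (by positivity) h4 _).trans (le_of_eq ?_)
    rw [mul_pow]
    congr 1
    rw [← Real.rpow_natCast (B ^ (1 / (d : ℝ))), ← Real.rpow_mul hB0.le]
    congr 1
    push_cast
    field_simp
  · intro P hP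
    rw [Set.Finite.mem_toFinset, Set.mem_preimage, Finset.mem_coe, Fintype.mem_piFinset]
    intro z
    rw [Finset.mem_Icc, ← abs_le]
    have h1 := (hsize P B hP z.1 z.2).trans hW1
    have h2 : ((|u P z| : ℤ) : ℝ) ≤ ((W : ℤ) : ℝ) := by
      push_cast
      exact h1
    exact_mod_cast h2

/-- **almost all pairs of points of the projective line over a number field** -/
theorem main_pairs (F : Fin ℓ → MvPolynomial (Fin 4) (𝓞 K)) (a b m : Fin ℓ → ℕ)
    (hbi : ∀ j, Bihom (F j) (a j) (b j)) (hirr : ∀ j, Irreducible (toK (F j)))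
    (hdist : ∀ i j, i ≠ j → ¬ Associated (toK (F i)) (toK (F j)))
    (hm : ∀ j, m j ≤ 1 ∨ (m j ≤ a j + b j ∧ a j + b j ≤ 2) ∨ IsNormForm (F j) (m j))
    (S : Finset ℕ) (hS : ∀ p ∈ S, p.Prime) (θ : ℝ) (hθ : θ < ∑ j, (m j : ℝ)) :
    ∃ c : ℝ, 0 < c ∧ ∃ C : ℝ, ∀ B : ℕ, 1 ≤ B →
      ∃ Z : Finset (ℙ K (Fin 2 → K) × ℙ K (Fin 2 → K)),
      (Z.card : ℝ) ≤ C * (B : ℝ) ^ ((4 : ℝ) - c) ∧
      ∀ P Q : ℙ K (Fin 2 → K), P.mulHeight ≤ B → Q.mulHeight ≤ B → (P, Q) ∉ Z →
        (∀ j, aeval (join P.rep Q.rep) (F j) ≠ 0) ∧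
        θ * Real.log B ≤ truncatedCount S F a b P.rep Q.rep := by
  set d : ℕ := Module.finrank ℚ K with hd
  have hd1 : 1 ≤ d := Module.finrank_pos (R := ℚ) (M := K)
  have hd0 : (0 : ℝ) < d := by exact_mod_cast hd1
  -- the identification
  obtain ⟨N, hN⟩ : ∃ N, 4 * d = N + 1 := ⟨4 * d - 1, by omega⟩
  have hcardE : Fintype.card (Fin (3 + 1) × Idx K) = N + 1 := by
    rw [Fintype.card_prod, Fintype.card_fin, card_idx, ← hN]
  let e : Fin (3 + 1) × Idx K ≃ Fin (N + 1) := Fintype.equivFinOfCardEq hcardE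
  have hhom : ∀ j, (F j).IsHomogeneous (a j + b j) := fun j => (hbi j).hom
  -- few coincidences
  have hfew : ∀ j, FewCoincidences (normPoly (weil e (F j))) (d * m j) := by
    intro j
    have h1 : m j ≤ 1 → FewCoincidences (normPoly (weil e (F j))) (d * m j) := fun h =>
      few_norm ((few_any_nf e (F j) (hirr j)).mono (by nlinarith))
    rcases hm j with h | h | h
    · exact h1 h
    · by_cases h2 : m j ≤ 1
      · exact h1 h2
      · have h3 : m j = 2 := by omega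
        have h4 : a j + b j = 2 := by omega
        rw [h3]
        exact few_norm (few_two_nf e (F j) (h4 ▸ hhom j) (hirr j))
    · exact few_normform e (F j) (m j) h
  set Δ : ℝ := (∑ j, (m j : ℝ)) - θ with hΔ
  have hΔ0 : 0 < Δ := by rw [hΔ]; linarith
  set θ₁ : ℝ := θ + Δ / 2 with hθ₁
  have hspT := sparse_trunc (fun j => weil e (F j)) (fun j => a j + b j) (fun j => d * m j)
    (fun j => weil_hom e (hhom j)) (fun j => weil_irreducible e (hirr j))
    (fun i j hij h => hdist i j hij (by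
      have h1 : toK (F i) ∣ toK (F j) := weil_dvd e h.dvd
      exact (hirr i).associated_of_dvd (hirr j) h1)) hfew S hS (d * θ₁) (by
      push_cast
      rw [← Finset.mul_sum]
      refine mul_lt_mul_of_pos_left ?_ hd0
      rw [hθ₁, hΔ]
      linarith)
  obtain ⟨c', hc', C', hC', hcount⟩ := hspT
  obtain ⟨A₂, Mr, hA₂1, hco⟩ := coords K 1
  choose tt y Nn htt hy hNn hNM hNmem hysize using hco
  set u : ℙ K (Fin 2 → K) × ℙ K (Fin 2 → K) → Fin (N + 1) → ℤ := fun P z =>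
    (RingOfIntegers.basis K).repr (join (y P.1) (y P.2) (e.symm z).1) (e.symm z).2 with hu
  have hvec : ∀ P, vec e (u P) = join (y P.1) (y P.2) := by
    intro P
    funext i
    rw [vec, hu]
    simp only [Equiv.symm_apply_apply]
    have h1 := (RingOfIntegers.basis K).sum_repr (join (y P.1) (y P.2) i)
    conv_rhs => rw [← h1]
    exact Finset.sum_congr rfl fun l _ => by rw [zsmul_eq_mul]
  have hinj : Function.Injective u := by
    intro P P' h
    have h1 : join (y P.1) (y P.2) = join (y P'.1) (y P'.2) := by rw [← hvec, ← hvec, h]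
    have h3 : y P.1 = y P'.1 := by
      funext i
      fin_cases i
      · exact congrFun h1 0
      · exact congrFun h1 1
    have h4 : y P.2 = y P'.2 := by
      funext i
      fin_cases i
      · exact congrFun h1 2
      · exact congrFun h1 3
    exact Prod.ext (eq_of_coords (htt _) (hy _) (hy _) h3)
      (eq_of_coords (htt _) (hy _) (hy _) h4)
  set Bp : ℕ → ℕ := fun B => ⌈A₂ * (B : ℝ) ^ (1 / (d : ℝ))⌉₊ with hBp
  have hroot : ∀ B : ℕ, 1 ≤ B → 1 ≤ (B : ℝ) ^ (1 / (d : ℝ)) := fun B hB =>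
    Real.one_le_rpow (by exact_mod_cast hB) (by positivity)
  have hBp1 : ∀ B : ℕ, 1 ≤ B → 1 ≤ Bp B ∧ (B : ℝ) ^ (1 / (d : ℝ)) ≤ Bp B ∧
      (Bp B : ℝ) ≤ 2 * A₂ * (B : ℝ) ^ (1 / (d : ℝ)) := by
    intro B hB
    have h1 := hroot B hB
    have h2 : 1 ≤ A₂ * (B : ℝ) ^ (1 / (d : ℝ)) := one_le_mul_of_one_le_of_one_le hA₂1 h1
    have h3 := Nat.le_ceil (A₂ * (B : ℝ) ^ (1 / (d : ℝ)))
    have h4 := (Nat.ceil_lt_add_one (a := A₂ * (B : ℝ) ^ (1 / (d : ℝ))) (by linarith)).le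
    refine ⟨?_, ?_, ?_⟩
    · have h5 : (1 : ℝ) ≤ Bp B := h2.trans h3
      exact_mod_cast h5
    · refine le_trans ?_ h3
      exact le_mul_of_one_le_left (by linarith) hA₂1
    · refine h4.trans ?_
      nlinarith
  have hbox : ∀ B : ℕ, 1 ≤ B → ∀ P : ℙ K (Fin 2 → K) × ℙ K (Fin 2 → K), P.1.mulHeight ≤ B →
      P.2.mulHeight ≤ B → u P ∈ box (N + 1) (Bp B) := by
    intro B hB P hP hQ
    rw [mem_box]
    intro z
    have hj : ∀ i l, |(((RingOfIntegers.basis K).repr (join (y P.1) (y P.2) i) l : ℤ) : ℝ)| ≤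
        A₂ * (B : ℝ) ^ (1 / (d : ℝ)) := by
      intro i l
      fin_cases i
      · exact hysize P.1 B hP 0 l
      · exact hysize P.1 B hP 1 l
      · exact hysize P.2 B hQ 0 l
      · exact hysize P.2 B hQ 1 l
    have h2 : |((u P z : ℤ) : ℝ)| ≤ (Bp B : ℝ) := (hj _ _).trans (Nat.le_ceil _)
    have h3 : ((|u P z| : ℤ) : ℝ) ≤ ((Bp B : ℤ) : ℝ) := by
      push_cast
      exact h2
    exact_mod_cast h3
  set L : ℝ := Real.log (2 * A₂) with hL
  have hL0 : 0 ≤ L := Real.log_nonneg (by linarith)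
  obtain ⟨B₀, hB₀⟩ : ∃ B₀ : ℕ, ∀ B : ℕ, B₀ ≤ B →
      |θ₁| * (d * L) + d * Real.log (Mr * Mr : ℕ) ≤ Δ / 4 * Real.log B := by
    have h1 : Filter.Tendsto (fun B : ℕ => Δ / 4 * Real.log B) Filter.atTop Filter.atTop :=
      (Real.tendsto_log_atTop.comp tendsto_natCast_atTop_atTop).const_mul_atTop (by positivity)
    exact Filter.eventually_atTop.mp (h1.eventually_ge_atTop
      (|θ₁| * (d * L) + d * Real.log (Mr * Mr : ℕ)))
  set c'' : ℝ := min c' 1 with hc''
  have hc''0 : 0 < c'' := lt_min hc' one_pos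
  have hc''1 : c'' ≤ 1 := min_le_right _ _
  have hNd : (4 : ℝ) * d = (N : ℝ) + 1 := by exact_mod_cast hN
  have hNc : 0 ≤ ((N + 1 : ℕ) : ℝ) - c'' := by
    push_cast
    have : (0 : ℝ) ≤ N := Nat.cast_nonneg N
    linarith
  set Bm : ℕ := ⌈2 * A₂ * (B₀ : ℝ)⌉₊ with hBm
  refine ⟨c'' / d, by positivity, C' * (2 * A₂) ^ (((N + 1 : ℕ) : ℝ) - c'') +
    (2 * Bm + 1 : ℕ) ^ (N + 1), fun B hB => ?_⟩
  have hB1 : (1 : ℝ) ≤ B := by exact_mod_cast hB
  have hBpos : (0 : ℝ) < B := by linarith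
  obtain ⟨hb1, hb2, hb3⟩ := hBp1 B hB
  have hexp : (0 : ℝ) ≤ (4 : ℝ) - c'' / d := by
    have h1 : c'' / d ≤ 1 := by
      rw [div_le_one hd0]
      have : (1 : ℝ) ≤ d := by exact_mod_cast hd1
      linarith
    linarith
  have hBexp : 1 ≤ (B : ℝ) ^ ((4 : ℝ) - c'' / d) := Real.one_le_rpow hB1 hexp
  by_cases hBB : B₀ ≤ B
  swap
  · -- small `B`
    rw [not_le] at hBB
    have hfin : ((box (N + 1) (Bp B) : Finset (Fin (N + 1) → ℤ)) : Set (Fin (N + 1) → ℤ)).Finite :=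
      Finset.finite_toSet _
    have hfin' := hfin.preimage hinj.injOn
    refine ⟨hfin'.toFinset, ?_, ?_⟩
    · have h1 : hfin'.toFinset.card ≤ (box (N + 1) (Bp B)).card := by
        refine Finset.card_le_card_of_injOn u ?_ hinj.injOn
        intro P hP
        have := (Set.Finite.mem_toFinset hfin').1 hP
        exact this
      rw [card_box] at h1
      have h2 : Bp B ≤ Bm := by
        have h3 : (Bp B : ℝ) ≤ Bm := by
          refine hb3.trans (le_trans ?_ (Nat.le_ceil _))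
          refine mul_le_mul_of_nonneg_left ?_ (by linarith)
          calc (B : ℝ) ^ (1 / (d : ℝ)) ≤ (B : ℝ) ^ (1 : ℝ) :=
                Real.rpow_le_rpow_of_exponent_le hB1 (by
                  rw [div_le_one hd0]; exact_mod_cast hd1)
            _ = B := Real.rpow_one _
            _ ≤ B₀ := by exact_mod_cast hBB.le
        exact_mod_cast h3
      have h3 : hfin'.toFinset.card ≤ (2 * Bm + 1) ^ (N + 1) :=
        h1.trans (Nat.pow_le_pow_left (by omega) _)
      have h4 : (hfin'.toFinset.card : ℝ) ≤ ((2 * Bm + 1 : ℕ) : ℝ) ^ (N + 1) := by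
        exact_mod_cast h3
      have h5 : (0 : ℝ) ≤ C' * (2 * A₂) ^ (((N + 1 : ℕ) : ℝ) - c'') := by positivity
      calc (hfin'.toFinset.card : ℝ) ≤ (C' * (2 * A₂) ^ (((N + 1 : ℕ) : ℝ) - c'') +
            ((2 * Bm + 1 : ℕ) : ℝ) ^ (N + 1)) * 1 := by linarith
        _ ≤ _ := mul_le_mul_of_nonneg_left hBexp (by positivity)
    · intro P Q hP hQ hPZ
      exfalso
      apply hPZ
      rw [Set.Finite.mem_toFinset]
      exact hbox B hB (P, Q) hP hQ
  · -- large `B`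
    have hfin := finite_sub (N + 1) (Bp B) (fun u => (∃ j, val (weil e (F j)) u = 0) ∨
      truncI S (fun j => val (weil e (F j)) u) < d * θ₁ * Real.log (Bp B))
    have hfin' := hfin.preimage hinj.injOn
    refine ⟨hfin'.toFinset, ?_, ?_⟩
    · have h1 : hfin'.toFinset.card ≤ hfin.toFinset.card := by
        refine Finset.card_le_card_of_injOn u ?_ hinj.injOn
        intro P hP
        have := (Set.Finite.mem_toFinset hfin').1 hP
        rw [Finset.mem_coe, Set.Finite.mem_toFinset]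
        exact this
      have h2 := hcount (Bp B) hb1
      rw [Set.ncard_eq_toFinset_card _ hfin] at h2
      have h3 : (hfin'.toFinset.card : ℝ) ≤ hfin.toFinset.card := by exact_mod_cast h1
      have hbr : (1 : ℝ) ≤ Bp B := by exact_mod_cast hb1
      have h4 : (Bp B : ℝ) ^ (((N + 1 : ℕ) : ℝ) - c') ≤ (Bp B : ℝ) ^ (((N + 1 : ℕ) : ℝ) - c'') :=
        Real.rpow_le_rpow_of_exponent_le hbr (by
          have := min_le_left c' 1
          linarith)
      have h5 : (Bp B : ℝ) ^ (((N + 1 : ℕ) : ℝ) - c'') ≤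
          (2 * A₂ * (B : ℝ) ^ (1 / (d : ℝ))) ^ (((N + 1 : ℕ) : ℝ) - c'') :=
        Real.rpow_le_rpow (by linarith) hb3 hNc
      have h6 : (2 * A₂ * (B : ℝ) ^ (1 / (d : ℝ))) ^ (((N + 1 : ℕ) : ℝ) - c'') =
          (2 * A₂) ^ (((N + 1 : ℕ) : ℝ) - c'') * (B : ℝ) ^ ((4 : ℝ) - c'' / d) := by
        rw [Real.mul_rpow (by linarith) (by positivity), ← Real.rpow_mul hBpos.le]
        congr 2
        push_cast
        rw [← hNd]
        field_simp
      have h7 : (0 : ℝ) ≤ ((2 * Bm + 1 : ℕ) : ℝ) ^ (N + 1) := by positivity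
      calc (hfin'.toFinset.card : ℝ) ≤ hfin.toFinset.card := h3
        _ ≤ C' * (Bp B : ℝ) ^ (((N + 1 : ℕ) : ℝ) - c') := h2
        _ ≤ C' * ((2 * A₂) ^ (((N + 1 : ℕ) : ℝ) - c'') * (B : ℝ) ^ ((4 : ℝ) - c'' / d)) := by
            rw [← h6]
            exact mul_le_mul_of_nonneg_left (h4.trans h5) hC'.le
        _ = (C' * (2 * A₂) ^ (((N + 1 : ℕ) : ℝ) - c'')) * (B : ℝ) ^ ((4 : ℝ) - c'' / d) := by
            ring
        _ ≤ _ := by
            refine mul_le_mul_of_nonneg_right ?_ (by positivity)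
            linarith
    · intro P Q hP hQ hPZ
      have hPbox := hbox B hB (P, Q) hP hQ
      have hgood : ¬ ((∃ j, val (weil e (F j)) (u (P, Q)) = 0) ∨
          truncI S (fun j => val (weil e (F j)) (u (P, Q))) < d * θ₁ * Real.log (Bp B)) := by
        intro h
        apply hPZ
        rw [Set.Finite.mem_toFinset]
        exact ⟨hPbox, h⟩
      rw [not_or] at hgood
      obtain ⟨hg1, hg2⟩ := hgood
      push Not at hg1 hg2
      simp only [val_weil, hvec] at hg1 hg2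
      have hFrep : ∀ j, aeval (join P.rep Q.rep) (F j) ≠ 0 := by
        intro j h0
        apply hg1 j
        have h1 := aeval_coe (F j) (join (y P) (y Q))
        rw [join_coe, hy, hy, aeval_join_smul (F j) (hbi j), h0, mul_zero] at h1
        exact RingOfIntegers.coe_injective (h1.symm.trans (map_zero (algebraMap (𝓞 K) K)).symm)
      refine ⟨hFrep, ?_⟩
      have hT1 := trunc_transfer S F a b (y P) (y Q) hg1 (Nn P) (Nn Q) (hNn P) (hNn Q) (hNmem P)
        (hNmem Q)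
      rw [hy, hy, truncatedCount_smul S F a b hbi (htt P) (htt Q)] at hT1
      have hMr : Real.log (Nn P * Nn Q : ℕ) ≤ Real.log (Mr * Mr : ℕ) := by
        refine Real.log_le_log ?_ ?_
        · exact_mod_cast Nat.mul_pos (hNn P) (hNn Q)
        · exact_mod_cast Nat.mul_le_mul (hNM P) (hNM Q)
      have hlogb1 : Real.log B ≤ d * Real.log (Bp B) := by
        have h1 : Real.log ((B : ℝ) ^ (1 / (d : ℝ))) ≤ Real.log (Bp B) :=
          Real.log_le_log (by positivity) hb2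
        rw [Real.log_rpow hBpos] at h1
        have h2 := mul_le_mul_of_nonneg_left h1 hd0.le
        have h3 : (d : ℝ) * (1 / d * Real.log B) = Real.log B := by field_simp
        linarith
      have hlogb2 : d * Real.log (Bp B) ≤ Real.log B + d * L := by
        have h1 : Real.log (Bp B) ≤ Real.log (2 * A₂ * (B : ℝ) ^ (1 / (d : ℝ))) :=
          Real.log_le_log (by exact_mod_cast hb1) hb3
        rw [Real.log_mul (by linarith) (by positivity), Real.log_rpow hBpos] at h1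
        have h2 := mul_le_mul_of_nonneg_left h1 hd0.le
        have h3 : (d : ℝ) * (Real.log (2 * A₂) + 1 / d * Real.log B) =
            Real.log B + d * Real.log (2 * A₂) := by field_simp; ring
        rw [h3] at h2
        exact h2
      have hθ1 : θ₁ * Real.log B - |θ₁| * (d * L) ≤ d * θ₁ * Real.log (Bp B) := by
        have h1 : 0 ≤ d * Real.log (Bp B) - Real.log B := by linarith
        have h2 : d * Real.log (Bp B) - Real.log B ≤ d * L := by linarith
        have h3 : -(|θ₁| * (d * L)) ≤ θ₁ * (d * Real.log (Bp B) - Real.log B) := by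
          have h4 : |θ₁ * (d * Real.log (Bp B) - Real.log B)| ≤ |θ₁| * (d * L) := by
            rw [abs_mul, abs_of_nonneg h1]
            exact mul_le_mul_of_nonneg_left h2 (abs_nonneg _)
          exact (abs_le.1 h4).1
        have h5 : d * θ₁ * Real.log (Bp B) = θ₁ * Real.log B +
            θ₁ * (d * Real.log (Bp B) - Real.log B) := by ring
        linarith
      have h9 := hB₀ B hBB
      have h10 : θ₁ * Real.log B = θ * Real.log B + Δ / 2 * Real.log B := by rw [hθ₁]; ring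
      have h11 : (d : ℝ) * Real.log (Nn P * Nn Q : ℕ) ≤ d * Real.log (Mr * Mr : ℕ) :=
        mul_le_mul_of_nonneg_left hMr hd0.le
      have h12 : 0 ≤ Δ * Real.log B := mul_nonneg hΔ0.le (Real.log_nonneg hB1)
      linarith

/-- **Vojta's inequality at almost all pairs** -/
theorem main_vojta (F : Fin ℓ → MvPolynomial (Fin 4) (𝓞 K)) (a b m : Fin ℓ → ℕ)
    (hbi : ∀ j, Bihom (F j) (a j) (b j)) (hirr : ∀ j, Irreducible (toK (F j)))
    (hdist : ∀ i j, i ≠ j → ¬ Associated (toK (F i)) (toK (F j)))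
    (hm : ∀ j, m j ≤ 1 ∨ (m j ≤ a j + b j ∧ a j + b j ≤ 2) ∨ IsNormForm (F j) (m j))
    (S : Finset ℕ) (hS : ∀ p ∈ S, p.Prime) (κ₁ κ₂ : ℝ)
    (hκ : ∑ j, ((a j : ℝ) + b j - m j) < κ₁ + κ₂) :
    ∃ c : ℝ, 0 < c ∧ ∃ C : ℝ, ∀ B : ℕ, 1 ≤ B →
      ∃ Z : Finset (ℙ K (Fin 2 → K) × ℙ K (Fin 2 → K)),
      (Z.card : ℝ) ≤ C * (B : ℝ) ^ ((4 : ℝ) - c) ∧
      ∀ P Q : ℙ K (Fin 2 → K), P.mulHeight ≤ B → Q.mulHeight ≤ B → (P, Q) ∉ Z →
        (∀ j, aeval (join P.rep Q.rep) (F j) ≠ 0) ∧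
        ((∑ j, (a j : ℝ)) - κ₁) * Real.log P.mulHeight +
          ((∑ j, (b j : ℝ)) - κ₂) * Real.log Q.mulHeight ≤
          truncatedCount S F a b P.rep Q.rep := by
  set Δ : ℝ := κ₁ + κ₂ - ∑ j, ((a j : ℝ) + b j - m j) with hΔ
  have hΔ0 : 0 < Δ := by rw [hΔ]; linarith
  set α : ℝ := (∑ j, (a j : ℝ)) - κ₁ with hα
  set β : ℝ := (∑ j, (b j : ℝ)) - κ₂ with hβ
  set η : ℝ := min (1 / 2) (Δ / (4 * (|α| + |β| + 1))) with hη
  have hη0 : 0 < η := lt_min (by norm_num) (by positivity)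
  have hη1 : η ≤ 1 / 2 := min_le_left _ _
  have hη2 : (|α| + |β|) * η ≤ Δ / 4 := by
    have h1 : η ≤ Δ / (4 * (|α| + |β| + 1)) := min_le_right _ _
    have h2 : 0 ≤ |α| + |β| := by positivity
    calc (|α| + |β|) * η ≤ (|α| + |β| + 1) * (Δ / (4 * (|α| + |β| + 1))) := by
          apply mul_le_mul (by linarith) h1 hη0.le (by linarith)
      _ = Δ / 4 := by field_simp
  obtain ⟨c, hc, C, h⟩ := main_pairs F a b m hbi hirr hdist hm S hS
    ((∑ j, (m j : ℝ)) - Δ / 2) (by linarith)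
  obtain ⟨Cp, hCp, hcp⟩ := count_points K 1
  have hαβ : α + β = (∑ j, (m j : ℝ)) - Δ := by
    rw [hα, hβ, hΔ, Finset.sum_sub_distrib, Finset.sum_add_distrib]
    ring
  set c' := min c (2 * η) with hc'
  refine ⟨c', lt_min hc (by linarith), |C| + 2 * Cp ^ 2, fun B hB => ?_⟩
  have hB1 : (1 : ℝ) ≤ B := by exact_mod_cast hB
  have hBpos : (0 : ℝ) < B := by linarith
  have hlogB : 0 ≤ Real.log B := Real.log_nonneg hB1
  obtain ⟨Z, hZ, hZ2⟩ := h B hB
  obtain ⟨Z₁, hZ₁, hZ₁2⟩ := hcp B hB1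
  obtain ⟨Z₀, hZ₀, hZ₀2⟩ := hcp ((B : ℝ) ^ (1 - η)) (Real.one_le_rpow hB1 (by linarith))
  refine ⟨Z ∪ (Z₀ ×ˢ Z₁ ∪ Z₁ ×ˢ Z₀), ?_, ?_⟩
  · have h1 : ((Z ∪ (Z₀ ×ˢ Z₁ ∪ Z₁ ×ˢ Z₀)).card : ℝ) ≤ Z.card + 2 * (Z₀.card * Z₁.card) := by
      have h2 := Finset.card_union_le Z (Z₀ ×ˢ Z₁ ∪ Z₁ ×ˢ Z₀)
      have h3 := Finset.card_union_le (Z₀ ×ˢ Z₁) (Z₁ ×ˢ Z₀)
      rw [Finset.card_product, Finset.card_product] at h3
      have h4 : (Z ∪ (Z₀ ×ˢ Z₁ ∪ Z₁ ×ˢ Z₀)).card ≤ Z.card + 2 * (Z₀.card * Z₁.card) := by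
        rw [mul_comm Z₁.card Z₀.card] at h3
        omega
      exact_mod_cast h4
    have h2 : (Z₀.card : ℝ) * Z₁.card ≤ Cp ^ 2 * (B : ℝ) ^ ((4 : ℝ) - 2 * η) := by
      calc (Z₀.card : ℝ) * Z₁.card ≤ (Cp * ((B : ℝ) ^ (1 - η)) ^ (((1 : ℕ) : ℝ) + 1)) *
            (Cp * (B : ℝ) ^ (((1 : ℕ) : ℝ) + 1)) := by
            apply mul_le_mul hZ₀ hZ₁ (Nat.cast_nonneg _) (by positivity)
        _ = _ := by
            rw [← Real.rpow_mul hBpos.le]
            have h5 : (B : ℝ) ^ ((1 - η) * (((1 : ℕ) : ℝ) + 1)) * (B : ℝ) ^ (((1 : ℕ) : ℝ) + 1) =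
                (B : ℝ) ^ ((4 : ℝ) - 2 * η) := by
              rw [← Real.rpow_add hBpos]
              congr 1
              push_cast
              ring
            calc Cp * (B : ℝ) ^ ((1 - η) * (((1 : ℕ) : ℝ) + 1)) *
                (Cp * (B : ℝ) ^ (((1 : ℕ) : ℝ) + 1)) = Cp ^ 2 *
                ((B : ℝ) ^ ((1 - η) * (((1 : ℕ) : ℝ) + 1)) * (B : ℝ) ^ (((1 : ℕ) : ℝ) + 1)) := by
                  ring
              _ = _ := by rw [h5]
    have h3 : (B : ℝ) ^ ((4 : ℝ) - 2 * η) ≤ (B : ℝ) ^ ((4 : ℝ) - c') :=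
      Real.rpow_le_rpow_of_exponent_le hB1 (by
        have := min_le_right c (2 * η)
        linarith)
    have h4 : (B : ℝ) ^ ((4 : ℝ) - c) ≤ (B : ℝ) ^ ((4 : ℝ) - c') :=
      Real.rpow_le_rpow_of_exponent_le hB1 (by
        have := min_le_left c (2 * η)
        linarith)
    have h5 : C * (B : ℝ) ^ ((4 : ℝ) - c) ≤ |C| * (B : ℝ) ^ ((4 : ℝ) - c') :=
      mul_le_mul (le_abs_self C) h4 (by positivity) (abs_nonneg C)
    have h6 : Cp ^ 2 * (B : ℝ) ^ ((4 : ℝ) - 2 * η) ≤ Cp ^ 2 * (B : ℝ) ^ ((4 : ℝ) - c') :=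
      mul_le_mul_of_nonneg_left h3 (by positivity)
    rw [add_mul]
    linarith
  · intro P Q hP hQ hPQ
    rw [Finset.mem_union, Finset.mem_union, Finset.mem_product, Finset.mem_product, not_or,
      not_or] at hPQ
    obtain ⟨hg1, hg2, hg3⟩ := hPQ
    obtain ⟨h1, h2⟩ := hZ2 P Q hP hQ hg1
    refine ⟨h1, le_trans ?_ h2⟩
    have hlow : ∀ R : ℙ K (Fin 2 → K), R.mulHeight ≤ B → R ∉ Z₀ →
        (1 - η) * Real.log B ≤ Real.log R.mulHeight ∧ Real.log R.mulHeight ≤ Real.log B := by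
      intro R hR hR0
      have h3 : (B : ℝ) ^ (1 - η) < R.mulHeight := by
        by_contra hcon
        rw [not_lt] at hcon
        exact hR0 (hZ₀2 R hcon)
      have h4 : 0 < (B : ℝ) ^ (1 - η) := by positivity
      refine ⟨?_, Real.log_le_log (h4.trans h3) hR⟩
      rw [← Real.log_rpow hBpos]
      exact Real.log_le_log h4 h3.le
    have hP1 : P ∉ Z₀ := fun h => hg2 ⟨h, hZ₁2 Q hQ⟩
    have hQ1 : Q ∉ Z₀ := fun h => hg3 ⟨hZ₁2 P hP, h⟩
    obtain ⟨p1, p2⟩ := hlow P hP hP1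
    obtain ⟨q1, q2⟩ := hlow Q hQ hQ1
    have key : ∀ γ x : ℝ, (1 - η) * Real.log B ≤ x → x ≤ Real.log B →
        γ * x ≤ γ * Real.log B + |γ| * η * Real.log B := by
      intro γ x hx1 hx2
      rcases le_total 0 γ with hγ | hγ
      · have := mul_le_mul_of_nonneg_left hx2 hγ
        have h0 : 0 ≤ |γ| * η * Real.log B := by positivity
        linarith
      · rw [abs_of_nonpos hγ]
        have := mul_le_mul_of_nonneg_left hx1 (neg_nonneg.2 hγ)
        nlinarith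
    have e1 := key α _ p1 p2
    have e2 := key β _ q1 q2
    have e3 : (|α| + |β|) * η * Real.log B ≤ Δ / 4 * Real.log B :=
      mul_le_mul_of_nonneg_right hη2 hlogB
    have e4 : (α + β) * Real.log B = ((∑ j, (m j : ℝ)) - Δ) * Real.log B := by rw [hαβ]
    have e5 : 0 ≤ Δ * Real.log B := mul_nonneg hΔ0.le hlogB
    nlinarith

end Pool.Agent.R366.PP
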